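import Pool.Agent.H37.CTN.Stmts
import Pool.Agent.H41.CTL.T61

/-!
# Row UB3 of the board `ctn`
-/

set_option autoImplicit false

namespace Pool.CND.UB3H

/-- the kernel of an additive function on a subgroup -/
def ker {G F : Type} [Group G] [Field F] (H : Subgroup G) (χ : G → F)
    (hχ : ∀ x ∈ H, ∀ y ∈ H, χ (x * y) = χ x + χ y) : Subgroup G where
  carrier := {x | x ∈ H ∧ χ x = 0}
  mul_mem' := by
    rintro a b ⟨ha, ha0⟩ ⟨hb, hb0⟩
    exact ⟨H.mul_mem ha hb, by rw [hχ a ha b hb, ha0, hb0, add_zero]⟩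
  one_mem' := by
    refine ⟨H.one_mem, ?_⟩
    have h := hχ 1 H.one_mem 1 H.one_mem
    rw [mul_one] at h
    exact left_eq_add.1 h
  inv_mem' := by
    rintro a ⟨ha, ha0⟩
    refine ⟨H.inv_mem ha, ?_⟩
    have h1 := hχ 1 H.one_mem 1 H.one_mem
    rw [mul_one] at h1
    have h2 : χ 1 = 0 := left_eq_add.1 h1
    have h3 := hχ a ha a⁻¹ (H.inv_mem ha)
    rw [mul_inv_cancel, h2, ha0, zero_add] at h3
    exact h3.symm

theorem chi_inv {G F : Type} [Group G] [Field F] (H : Subgroup G) (χ : G → F)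
    (hχ : ∀ x ∈ H, ∀ y ∈ H, χ (x * y) = χ x + χ y) (a : G) (ha : a ∈ H) : χ a⁻¹ = - χ a := by
  have h1 := hχ 1 H.one_mem 1 H.one_mem
  rw [mul_one] at h1
  have h2 : χ 1 = 0 := left_eq_add.1 h1
  have h3 := hχ a ha a⁻¹ (H.inv_mem ha)
  rw [mul_inv_cancel, h2] at h3
  exact (neg_eq_of_add_eq_zero_right h3.symm).symm

/-- the section `H / ker χ` -/
theorem psec {G G' F : Type} [Group G] [Group G'] [Field F] (p : ℕ) (π : G →* G') (H : Subgroup G)
    (χ : G → F) (hχ : ∀ x ∈ H, ∀ y ∈ H, χ (x * y) = χ x + χ y) (z : G) (hz : z ∈ H)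
    (hz0 : χ z ≠ 0) (hinj : ∀ x ∈ H, π x = 1 → x = 1) : PSec p (H.map π) (π z) := by
  refine ⟨(ker H χ hχ).map π, ?_, ?_, ?_, Or.inl ?_⟩
  · rintro _ ⟨x, hx, rfl⟩
    exact ⟨x, hx.1, rfl⟩
  · rintro _ ⟨h, hh, rfl⟩ _ ⟨x, hx, rfl⟩
    refine ⟨h * x * h⁻¹, ⟨H.mul_mem (H.mul_mem hh hx.1) (H.inv_mem hh), ?_⟩, by simp⟩
    rw [hχ _ (H.mul_mem hh hx.1) _ (H.inv_mem hh), hχ _ hh _ hx.1, chi_inv H χ hχ h hh, hx.2]
    ring
  · rintro ⟨x, hx, hxz⟩
    have h1 : x * z⁻¹ = 1 := by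
      apply hinj _ (H.mul_mem hx.1 (H.inv_mem hz))
      rw [map_mul, map_inv, hxz, mul_inv_cancel]
    have h2 : x = z := mul_inv_eq_one.1 h1
    apply hz0
    rw [← h2]
    exact hx.2
  · rintro _ ⟨x, hx, rfl⟩ _ ⟨h, hh, rfl⟩
    refine ⟨h * x * h⁻¹ * x⁻¹, ⟨H.mul_mem (H.mul_mem (H.mul_mem hh hx) (H.inv_mem hh))
      (H.inv_mem hx), ?_⟩, by simp⟩
    rw [hχ _ (H.mul_mem (H.mul_mem hh hx) (H.inv_mem hh)) _ (H.inv_mem hx),
      hχ _ (H.mul_mem hh hx) _ (H.inv_mem hh), hχ _ hh _ hx, chi_inv H χ hχ h hh,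
      chi_inv H χ hχ x hx]
    ring

end Pool.CND.UB3H

namespace Pool.CND

open Pool.CND.T61H

theorem ub3_thm (h1 : S_GDW) (h2 : S_UB1) (h3 : S_UB2) : S_UB3 := by
  intro p f q n k F G _ _ _ _ _ _ C _ ι hp hf hq hcard hn hι hC hpC
  have hpF : Fact p.Prime := ⟨hp⟩
  have hq2 : 2 ≤ q := by
    rw [hq]
    calc 2 ≤ p := hp.two_le
      _ = p ^ 1 := (pow_one p).symm
      _ ≤ p ^ f := Nat.pow_le_pow_right hp.pos hf
  set r := (Finset.Icc 1 (n - 1)).lcm (fun m => q ^ m - 1) with hr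
  have hr1 : 1 ≤ r := by
    apply Nat.one_le_iff_ne_zero.2
    rw [hr, Finset.lcm_ne_zero_iff]
    intro m hm
    have hm1 : 1 ≤ m := (Finset.mem_Icc.1 hm).1
    have : 2 ^ 1 ≤ q ^ m := (Nat.pow_le_pow_left hq2 1).trans (Nat.pow_le_pow_right (by omega) hm1)
    omega
  have hqe : q ^ (n - 2) = p ^ (f * (n - 2)) := by rw [hq, pow_mul]
  rw [hqe]
  refine h1 p k (G ⧸ C) (f * (n - 2)) r hp inferInstance hr1 ?_
  rintro W ⟨N, hN⟩ -
  obtain ⟨W₁, hP, hmap, hinj, hall⟩ := lift_p p C hC hpC W N hN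
  set π := QuotientGroup.mk' C with hπ
  have hW1 : ∀ x ∈ W₁, π x ∈ W := fun x hx => hmap ▸ ⟨x, hx, rfl⟩
  have hιk : ∀ x : G, ι x = 1 → x = 1 := fun x hx => hι (by rw [hx, map_one])
  constructor
  · intro z hzW hz1 hzp hzc
    rw [← hmap] at hzW
    obtain ⟨z₁, hz₁, rfl⟩ := hzW
    have hc1 : ∀ w ∈ W₁, w * z₁ = z₁ * w := by
      intro w hw
      have h2 := hinj (w * z₁ * (z₁ * w)⁻¹)
        (W₁.mul_mem (W₁.mul_mem hw hz₁) (W₁.inv_mem (W₁.mul_mem hz₁ hw)))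
        (by rw [map_mul, map_inv, map_mul, map_mul, hzc (π w) (hW1 w hw), mul_inv_cancel])
      exact mul_inv_eq_one.1 h2
    have hz₁1 : z₁ ≠ 1 := by
      intro h
      exact hz1 (by rw [h, map_one])
    have hcW : Nat.card (W₁.map ι) = Nat.card W₁ := card_map ι W₁ (fun x _ => hιk x)
    obtain ⟨H', d, χ, hHW, hzH, hd, hcd, hχ, hχz⟩ := h2 p f q n F (W₁.map ι) (ι z₁) hp hf hq hcard
      hn (by
        obtain ⟨a, ha⟩ := IsPGroup.iff_card.1 hP
        exact ⟨a, by rw [hcW, ha]⟩) ⟨z₁, hz₁, rfl⟩ (fun h => hz₁1 (hιk _ h)) (by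
        rintro _ ⟨w, hw, rfl⟩
        rw [← map_mul, ← map_mul, hc1 w hw])
    set H₁ : Subgroup G := H'.comap ι with hH₁
    have hH₁W : H₁ ≤ W₁ := by
      intro x hx
      obtain ⟨y, hy, hyx⟩ := hHW (show ι x ∈ H' from hx)
      rw [← hι hyx]
      exact hy
    have hH₁m : H₁.map ι = H' := by
      ext y
      constructor
      · rintro ⟨x, hx, rfl⟩
        exact hx
      · intro hy
        obtain ⟨x, hx, rfl⟩ := hHW hy
        exact ⟨x, hy, rfl⟩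
    have hz₁H : z₁ ∈ H₁ := hzH
    have hin : ∀ x ∈ H₁, π x = 1 → x = 1 := fun x hx => hinj x (hH₁W hx)
    refine ⟨H₁.map π, d, ?_, ⟨z₁, hz₁H, rfl⟩, ?_, hd, ?_⟩
    · rintro _ ⟨x, hx, rfl⟩
      exact hW1 x (hH₁W hx)
    · exact UB3H.psec p π H₁ (fun x => χ (ι x))
        (fun x hx y hy => by rw [map_mul]; exact hχ _ hx _ hy) z₁ hz₁H hχz hin
    · rw [← hmap, card_map π W₁ hinj, card_map π H₁ hin, ← hcW, hcd, ← hH₁m,
        card_map ι H₁ (fun x _ => hιk x)]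
  · intro g C' hg hgW hC'W hC'b _ _ hC'g _ x _
    obtain ⟨h, rfl⟩ := QuotientGroup.mk'_surjective C g
    have hh : ¬ p ∣ orderOf h := by
      intro hd
      have h2 : h ^ orderOf (π h) ∈ C := by
        rw [← QuotientGroup.eq_one_iff]
        show π (h ^ orderOf (π h)) = 1
        rw [map_pow, pow_orderOf_eq_one]
      have h3 : h ^ (orderOf (π h) * Nat.card C) = 1 := by
        rw [pow_mul]
        have : (⟨_, h2⟩ : C) ^ Nat.card C = 1 := pow_card_eq_one'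
        exact congrArg (fun u : C => (u : G)) this
      have h4 := hd.trans (orderOf_dvd_of_pow_eq_one h3)
      rcases hp.dvd_mul.1 h4 with h5 | h5
      · exact hg h5
      · exact hpC h5
    set C₁ : Subgroup G := W₁ ⊓ C'.comap π with hC₁
    have hn1 : ∀ w ∈ C₁, h * w * h⁻¹ ∈ C₁ := by
      rintro w ⟨hw, hwC⟩
      have h6 : π (h * w * h⁻¹) ∈ C' := by
        rw [map_mul, map_mul, map_inv]
        exact hC'g _ hwC
      refine ⟨hall _ (hC'W h6) ?_, h6⟩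
      obtain ⟨m, hm⟩ := hP ⟨w, hw⟩
      refine ⟨m, ?_⟩
      have hm' : w ^ p ^ m = 1 := congrArg (fun u : W₁ => (u : G)) hm
      rw [conj_pow, hm', mul_one, mul_inv_cancel]
    have hCb : C₁ ≠ ⊥ := by
      intro hb
      apply hC'b
      rw [eq_bot_iff]
      intro c hc
      have h6 := hC'W hc
      rw [← hmap] at h6
      obtain ⟨w, hw, rfl⟩ := h6
      have h7 : w ∈ C₁ := ⟨hw, hc⟩
      rw [hb, Subgroup.mem_bot] at h7
      rw [h7, map_one]
      exact Subgroup.one_mem _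
    have hPC : IsPGroup p C₁ := hP.to_le inf_le_left
    obtain ⟨a, ha⟩ := IsPGroup.iff_card.1 hPC
    have h8 := h3 p f q n F (C₁.map ι) (ι h) hp hf hq hcard
      ⟨a, by rw [card_map ι C₁ (fun x _ => hιk x), ha]⟩ (by
        intro hb
        apply hCb
        rw [eq_bot_iff]
        intro c hc
        have h9 : ι c ∈ C₁.map ι := ⟨c, hc, rfl⟩
        rw [hb, Subgroup.mem_bot] at h9
        rw [Subgroup.mem_bot]
        exact hιk c h9) (by
        rintro _ ⟨w, hw, rfl⟩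
        refine ⟨h * w * h⁻¹, hn1 w hw, by simp⟩) (by
        rw [orderOf_injective ι hι]
        exact hh)
    have h9 : h ^ r = 1 := by
      apply hιk
      rw [map_pow]
      exact h8
    rw [← map_pow, h9, map_one, one_mul, mul_one]

end Pool.CND
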